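import Mathlib
import Pool.Agent.T6.H18.HH.Transfer

/-!
# For odd `d` the module `S_{(d^n)} V` does not occur in `S^n(S^d V)`
-/

set_option autoImplicit false

namespace Pool.Agent.Helper51.HH

open Finset Pool.Agent.T6.H18.HH

/-- evaluation at the invertible matrices is enough -/
theorem eval_all {n : ℕ} {ι : Type} [Fintype ι] [DecidableEq ι] (ψ : Tensor n ι) (a : ι → Fin n)
    (h : ∀ Y : Matrix (Fin n) (Fin n) ℂ, Y.det ≠ 0 → act Y ψ a = 0)
    (Y : Matrix (Fin n) (Fin n) ℂ) : act Y ψ a = 0 := by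
  classical
  let P : Polynomial ℂ := ∑ b : ι → Fin n,
    (∏ x, (Polynomial.C (Y (a x) (b x)) + Polynomial.X * Polynomial.C (if a x = b x then 1 else 0))) *
      Polynomial.C (ψ b)
  have hP : ∀ s : ℂ, P.eval s = act (Matrix.scalar (Fin n) s - -Y) ψ a := by
    intro s
    simp only [P, Polynomial.eval_finsetSum, Polynomial.eval_mul, Polynomial.eval_prod,
      Polynomial.eval_add, Polynomial.eval_C, Polynomial.eval_X, act]
    refine sum_congr rfl fun b _ => ?_
    congr 1
    refine prod_congr rfl fun x _ => ?_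
    simp only [Matrix.sub_apply, Matrix.neg_apply, Matrix.scalar_apply, Matrix.diagonal_apply]
    split_ifs <;> ring
  have h0 : P * (-Y).charpoly = 0 := by
    apply Polynomial.funext
    intro s
    rw [Polynomial.eval_mul, Polynomial.eval_zero, hP, Matrix.eval_charpoly]
    by_cases hs : (Matrix.scalar (Fin n) s - -Y).det = 0
    · rw [hs, mul_zero]
    · rw [h _ hs, zero_mul]
  have h1 : P = 0 := by
    rcases mul_eq_zero.1 h0 with h | h
    · exact h
    · exact absurd h (Matrix.charpoly_monic _).ne_zero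
  have h2 := hP 0
  rw [h1, Polynomial.eval_zero] at h2
  have h3 : Matrix.scalar (Fin n) (0 : ℂ) - -Y = Y := by simp
  rw [h3] at h2
  exact h2.symm

/-- there is no nonzero semi-invariant of weight `det^d`, `d` odd, in `S^n(S^d ℂ^n)`, `n ≥ 2` -/
theorem semi_zero {n d : ℕ} (hn : 2 ≤ n) (hd : Odd d) (t : Tensor n (Fin n × Fin d))
    (hs : t ∈ SdSn n n d) (ht : ∀ Y : Matrix (Fin n) (Fin n) ℂ, Y.det ≠ 0 → act Y t = Y.det ^ d • t) :
    t = 0 := by
  have hdiag : t (fun x => x.1) = 0 := by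
    let σ : Equiv.Perm (Fin n) := Equiv.swap ⟨0, by omega⟩ ⟨1, by omega⟩
    have hσ : Equiv.Perm.sign σ = -1 := Equiv.Perm.sign_swap (by simp [Fin.ext_iff])
    have h1 : t (fun x => σ x.1) = t (fun x => x.1) := hs.2 σ (fun x => x.1)
    have hdet := det_perm σ
    rw [hσ] at hdet
    have h2 := congrFun (ht (Matrix.of fun j k => if σ j = k then (1 : ℂ) else 0) (by
      rw [hdet]; simp)) (fun x => x.1)
    rw [act_perm σ t (fun x => x.1), hdet, Pi.smul_apply, h1] at h2
    have h3 : (((-1 : ℤˣ) : ℤ) : ℂ) ^ d = -1 := by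
      simp [hd.neg_one_pow]
    rw [h3, smul_eq_mul, neg_one_mul] at h2
    exact self_eq_neg.1 h2
  apply eq_zero_of_eval
  · exact hs.1
  · apply eval_all
    intro Y hY
    rw [ht Y hY, Pi.smul_apply, hdiag, smul_zero]

/-- the matrix with the blocks `Y` and `Z` -/
def blk {n p : ℕ} (Y : Matrix (Fin n) (Fin n) ℂ) (Z : Matrix (Fin p) (Fin p) ℂ) :
    Matrix (Fin (n + p)) (Fin (n + p)) ℂ :=
  (Matrix.fromBlocks Y 0 0 Z).submatrix finSumFinEquiv.symm finSumFinEquiv.symm

theorem det_blk {n p : ℕ} (Y : Matrix (Fin n) (Fin n) ℂ) (Z : Matrix (Fin p) (Fin p) ℂ) :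
    (blk Y Z).det = Y.det * Z.det := by
  rw [blk, Matrix.det_submatrix_equiv_self, Matrix.det_fromBlocks_zero₂₁]

theorem blk_cc {n p : ℕ} (Y : Matrix (Fin n) (Fin n) ℂ) (Z : Matrix (Fin p) (Fin p) ℂ)
    (i j : Fin n) : blk Y Z (Fin.castAdd p i) (Fin.castAdd p j) = Y i j := by
  simp [blk]

theorem blk_nc {n p : ℕ} (Y : Matrix (Fin n) (Fin n) ℂ) (Z : Matrix (Fin p) (Fin p) ℂ)
    (i : Fin p) (j : Fin n) : blk Y Z (Fin.natAdd n i) (Fin.castAdd p j) = 0 := by
  simp [blk]

theorem blk_cn {n p : ℕ} (Y : Matrix (Fin n) (Fin n) ℂ) (Z : Matrix (Fin p) (Fin p) ℂ)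
    (i : Fin n) (j : Fin p) : blk Y Z (Fin.castAdd p i) (Fin.natAdd n j) = 0 := by
  simp [blk]

/-- the tensor `(e_1 ∧ ... ∧ e_n)^{⊗d}` in dimension `n + p` -/
noncomputable def w1 (n p d : ℕ) : Tensor (n + p) (Fin d × Fin n) :=
  wedgePow d (fun k : Fin n => Pi.single (Fin.castAdd p k) 1)

theorem act_w1 {n p : ℕ} (d : ℕ) (Y : Matrix (Fin n) (Fin n) ℂ) (Z : Matrix (Fin p) (Fin p) ℂ) :
    act (blk Y Z) (w1 n p d) = Y.det ^ d • w1 n p d := by
  rw [w1, act_wedge]
  ext a
  simp only [wedgePow, Pi.smul_apply, smul_eq_mul]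
  have h : ∀ i : Fin d, Matrix.det (Matrix.of fun j k =>
      ((blk Y Z).mulVec (Pi.single (Fin.castAdd p k) 1)) (a (i, j))) =
      Y.det * Matrix.det (Matrix.of fun j (k : Fin n) =>
        (Pi.single (Fin.castAdd p k) 1 : Fin (n + p) → ℂ) (a (i, j))) := by
    intro i
    rw [mul_comm, ← Matrix.det_mul]
    congr 1
    ext j k
    simp only [Matrix.of_apply, Matrix.mul_apply, Matrix.mulVec_single, MulOpposite.op_one,
      one_smul, Matrix.col_apply]
    refine Fin.addCases (fun r => ?_) (fun r => ?_) (a (i, j))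
    · rw [blk_cc]
      simp only [Pi.single_apply, Fin.castAdd_inj]
      simp
    · rw [blk_nc]
      symm
      apply sum_eq_zero
      intro l _
      rw [Pi.single_apply, if_neg, zero_mul]
      intro h
      have := congrArg Fin.val h
      simp at this
      omega
  simp only [h, prod_mul_distrib, prod_const, card_univ, Fintype.card_fin]

/-- tensors which are invariant under `1 ⊕ 2` are supported on the indices `< n` -/
theorem supp {n p : ℕ} {ι : Type} [Fintype ι] [DecidableEq ι] (t : Tensor (n + p) ι)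
    (h : act (blk (1 : Matrix (Fin n) (Fin n) ℂ) ((2 : ℂ) • (1 : Matrix (Fin p) (Fin p) ℂ))) t = t)
    (a : ι → Fin (n + p)) (x : ι) (r : Fin p) (hx : a x = Fin.natAdd n r) : t a = 0 := by
  classical
  have hb : ∀ i j : Fin (n + p),
      blk (1 : Matrix (Fin n) (Fin n) ℂ) ((2 : ℂ) • (1 : Matrix (Fin p) (Fin p) ℂ)) i j =
        if i = j then (if (i : ℕ) < n then 1 else 2) else 0 := by
    intro i j
    refine Fin.addCases (fun i => ?_) (fun i => ?_) i <;>
      refine Fin.addCases (fun j => ?_) (fun j => ?_) j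
    · rw [blk_cc]
      simp [Matrix.one_apply]
    · rw [blk_cn, if_neg]
      intro h
      have := congrArg Fin.val h
      simp at this
      omega
    · rw [blk_nc, if_neg]
      intro h
      have := congrArg Fin.val h
      simp at this
      omega
    · simp [blk, Matrix.one_apply]
  have h1 := congrFun h a
  have h2 : act (blk (1 : Matrix (Fin n) (Fin n) ℂ) ((2 : ℂ) • (1 : Matrix (Fin p) (Fin p) ℂ))) t a =
      (∏ y, (if ((a y : Fin (n + p)) : ℕ) < n then (1 : ℂ) else 2)) * t a := by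
    simp only [act, hb]
    rw [sum_eq_single a]
    · simp
    · intro b _ hba
      obtain ⟨y, hy⟩ := Function.ne_iff.1 hba
      rw [prod_eq_zero (mem_univ y) (if_neg (Ne.symm hy)), zero_mul]
    · intro h
      exact absurd (mem_univ _) h
  rw [h2] at h1
  have h3 : ∀ y, (if ((a y : Fin (n + p)) : ℕ) < n then (1 : ℂ) else 2) =
      (((if ((a y : Fin (n + p)) : ℕ) < n then 1 else 2 : ℕ)) : ℂ) := by
    intro y
    split_ifs <;> simp
  simp only [h3] at h1
  rw [← Nat.cast_prod] at h1
  have h4 : ((∏ y, (if ((a y : Fin (n + p)) : ℕ) < n then 1 else 2 : ℕ)) : ℕ) ≠ 1 := by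
    intro h5
    have h6 := Finset.dvd_prod_of_mem
      (fun y => (if ((a y : Fin (n + p)) : ℕ) < n then 1 else 2 : ℕ)) (mem_univ x)
    rw [h5, hx] at h6
    simp at h6
  by_contra ht
  apply h4
  have h5 : ((((∏ y, (if ((a y : Fin (n + p)) : ℕ) < n then 1 else 2 : ℕ)) : ℕ) : ℂ) - 1) * t a = 0 := by
    rw [sub_mul, h1]
    ring
  rcases mul_eq_zero.1 h5 with h6 | h6
  · exact_mod_cast sub_eq_zero.1 h6
  · exact absurd h6 ht

/-- restriction to the indices `< n` -/
def rs {n p : ℕ} {ι : Type} (t : Tensor (n + p) ι) : Tensor n ι := fun a => t (fun x => Fin.castAdd p (a x))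

theorem act_rs {n p : ℕ} {ι : Type} [Fintype ι] [DecidableEq ι] (t : Tensor (n + p) ι)
    (Y : Matrix (Fin n) (Fin n) ℂ) (Z : Matrix (Fin p) (Fin p) ℂ) :
    act Y (rs t) = rs (act (blk Y Z) t) := by
  classical
  ext a
  simp only [act, rs]
  refine Finset.sum_of_injOn (fun b x => Fin.castAdd p (b x)) ?_ ?_ ?_ ?_
  · intro b _ c _ h
    ext x
    have := congrArg Fin.val (congrFun h x)
    simpa using this
  · intro b _
    exact mem_coe.2 (mem_univ _)
  · intro b _ hb
    have : ∃ x, ∃ r : Fin p, b x = Fin.natAdd n r := by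
      by_contra hc
      push Not at hc
      apply hb
      have h1 : ∀ x, ∃ c : Fin n, Fin.castAdd p c = b x := by
        intro x
        have h2 := hc x
        revert h2
        refine Fin.addCases (fun i => ?_) (fun i => ?_) (b x)
        · intro _
          exact ⟨i, rfl⟩
        · intro h2
          exact absurd rfl (h2 i)
      choose c hc2 using h1
      exact ⟨c, mem_coe.2 (mem_univ _), funext hc2⟩
    obtain ⟨x, r, hx⟩ := this
    rw [prod_eq_zero (mem_univ x), zero_mul]
    rw [hx, blk_cn]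
  · intro b _
    simp only [blk_cc]

/-- a semi-invariant of `GL_n × 1` in `S^n(S^d V)` vanishes if `d` is odd -/
theorem semi_zero' {n p d : ℕ} (hn : 2 ≤ n) (hd : Odd d) (t : Tensor (n + p) (Fin n × Fin d))
    (hs : t ∈ SdSn (n + p) n d)
    (ht : ∀ (Y : Matrix (Fin n) (Fin n) ℂ) (Z : Matrix (Fin p) (Fin p) ℂ), Y.det ≠ 0 → Z.det ≠ 0 →
      act (blk Y Z) t = Y.det ^ d • t) : t = 0 := by
  classical
  have h1 : rs t = 0 := by
    apply semi_zero hn hd
    · exact ⟨fun τ a => hs.1 τ (fun x => Fin.castAdd p (a x)),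
        fun σ a => hs.2 σ (fun x => Fin.castAdd p (a x))⟩
    · intro Y hY
      rw [act_rs t Y 1, ht Y 1 hY (by simp)]
      rfl
  ext a
  by_cases h : ∃ x, ∃ r : Fin p, a x = Fin.natAdd n r
  · obtain ⟨x, r, hx⟩ := h
    refine supp t ?_ a x r hx
    rw [ht 1 _ (by simp) (by
      rw [Matrix.det_smul, Matrix.det_one, mul_one]
      exact pow_ne_zero _ two_ne_zero)]
    simp
  · push Not at h
    have h2 : ∀ x, ∃ c : Fin n, Fin.castAdd p c = a x := by
      intro x
      have h2 := h x
      revert h2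
      refine Fin.addCases (fun i => ?_) (fun i => ?_) (a x)
      · intro _
        exact ⟨i, rfl⟩
      · intro h2
        exact absurd rfl (h2 i)
    choose c hc using h2
    have h3 := congrFun h1 c
    simp only [rs, hc] at h3
    exact h3

/-- `n` linearly independent vectors are the images of `e_1, …, e_n` under an invertible matrix -/
theorem exists_gl {n p : ℕ} (v : Fin n → Fin (n + p) → ℂ) (hv : LinearIndependent ℂ v) :
    ∃ g : GL (Fin (n + p)) ℂ, ∀ k : Fin n, g.1.mulVec (Pi.single (Fin.castAdd p k) 1) = v k := by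
  classical
  have he : LinearIndependent ℂ (fun k : Fin n => (Pi.single (Fin.castAdd p k) 1 : Fin (n + p) → ℂ)) := by
    have h1 := (Pi.basisFun ℂ (Fin (n + p))).linearIndependent.comp (Fin.castAdd p)
      (Fin.castAdd_injective n p)
    convert h1 using 1
    ext k
    simp
  let f := he.linearCombinationEquiv.symm.trans hv.linearCombinationEquiv
  obtain ⟨g, hg⟩ := Submodule.exists_linearEquiv_restrict_eq f
  have hgk : ∀ k : Fin n, g (Pi.single (Fin.castAdd p k) 1) = v k := by
    intro k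
    have h1 := hg (he.linearCombinationEquiv (Finsupp.single k 1))
    have h2 : ((he.linearCombinationEquiv (Finsupp.single k 1) : _) : Fin (n + p) → ℂ) =
        Pi.single (Fin.castAdd p k) 1 := by
      rw [LinearIndependent.linearCombinationEquiv_apply_coe]
      simp
    rw [h2] at h1
    rw [← h1]
    simp only [f, LinearEquiv.trans_apply, LinearEquiv.symm_apply_apply]
    rw [LinearIndependent.linearCombinationEquiv_apply_coe]
    simp
  refine ⟨⟨LinearMap.toMatrix' (g : (Fin (n + p) → ℂ) →ₗ[ℂ] (Fin (n + p) → ℂ)),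
    LinearMap.toMatrix' (g.symm : (Fin (n + p) → ℂ) →ₗ[ℂ] (Fin (n + p) → ℂ)), ?_, ?_⟩, ?_⟩
  · rw [← LinearMap.toMatrix'_comp]
    simp
  · rw [← LinearMap.toMatrix'_comp]
    simp
  · intro k
    rw [← hgk k]
    exact LinearMap.toMatrix'_mulVec _ _

/-- `v_1 ∧ ... ∧ v_n = 0` for linearly dependent vectors -/
theorem wedge_zero {m n d : ℕ} (hd : d ≠ 0) (v : Fin n → Fin m → ℂ) (hv : ¬ LinearIndependent ℂ v) :
    wedgePow d v = 0 := by
  classical
  ext a
  simp only [wedgePow, Pi.zero_apply]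
  refine prod_eq_zero (mem_univ ⟨0, Nat.pos_of_ne_zero hd⟩) ?_
  rw [Fintype.linearIndependent_iff] at hv
  push Not at hv
  obtain ⟨c, hc, k, hk⟩ := hv
  rw [← Matrix.exists_mulVec_eq_zero_iff]
  refine ⟨c, fun h => hk (congrFun h k), ?_⟩
  ext j
  have := congrFun hc (a (⟨0, Nat.pos_of_ne_zero hd⟩, j))
  simp only [Finset.sum_apply, Pi.smul_apply, smul_eq_mul, Pi.zero_apply] at this
  simp only [Matrix.mulVec, dotProduct, Matrix.of_apply, Pi.zero_apply]
  rw [← this]
  exact sum_congr rfl fun l _ => mul_comm _ _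

/-- **For odd `d` the map `h_{d,n}` vanishes on the `S_{(d^n)} V`-isotypic component.** -/
theorem hhh_zero {m d n : ℕ} (hn : 2 ≤ n) (hnm : n ≤ m) (hd : Odd d) :
    ∀ t ∈ isotypic m d n, hhh t = 0 := by
  classical
  obtain ⟨p, rfl⟩ := Nat.exists_eq_add_of_le hnm
  have hd0 : d ≠ 0 := by rintro rfl; simp at hd
  intro t ht
  refine Submodule.span_induction (p := fun t _ => hhh t = 0) ?_ ?_ ?_ ?_ ht
  · rintro _ ⟨f, ⟨hf1, hf2, hf3⟩, -, w, hw, rfl⟩
    -- the value at `w1`
    have hw1 : w1 n p d ∈ rect (n + p) d n := Submodule.subset_span ⟨_, rfl⟩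
    have h1 : hhh (f (w1 n p d)) = 0 := by
      apply semi_zero' hn hd _ (hhh_mem _)
      intro Y Z hY hZ
      have hg : (blk Y Z).det ≠ 0 := by
        rw [det_blk]
        exact mul_ne_zero hY hZ
      have h2 := hf3 (Matrix.GeneralLinearGroup.mkOfDetNeZero (blk Y Z) hg) _ hw1
      have h3 : (Matrix.GeneralLinearGroup.mkOfDetNeZero (blk Y Z) hg).1 = blk Y Z := rfl
      rw [h3, act_w1, hf2 _ _ hw1] at h2
      rw [act_hhh, ← h2, hhh_smul]
    -- the generators
    have h2 : ∀ v : Fin n → Fin (n + p) → ℂ, hhh (f (wedgePow d v)) = 0 := by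
      intro v
      by_cases hv : LinearIndependent ℂ v
      · obtain ⟨g, hg⟩ := exists_gl v hv
        have h3 : wedgePow d v = act g.1 (w1 n p d) := by
          rw [w1, act_wedge]
          simp only [hg]
        rw [h3, hf3 g _ hw1, ← act_hhh, h1]
        ext a
        simp [act]
      · rw [wedge_zero hd0 v hv]
        have h3 := hf2 0 0 (Submodule.zero_mem _)
        rw [zero_smul, zero_smul] at h3
        rw [h3]
        ext a
        simp [hhh, symOut, symIn, regroup]
    refine Submodule.span_induction (p := fun w _ => hhh (f w) = 0) ?_ ?_ ?_ ?_ hw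
    · rintro _ ⟨v, rfl⟩
      exact h2 v
    · have h3 := hf2 0 0 (Submodule.zero_mem _)
      rw [zero_smul, zero_smul] at h3
      rw [h3]
      ext a
      simp [hhh, symOut, symIn, regroup]
    · intro x y hx hy h3 h4
      rw [hf1 x hx y hy, hhh_add, h3, h4, add_zero]
    · intro c x hx h3
      rw [hf2 c x hx, hhh_smul, h3, smul_zero]
  · ext a
    simp [hhh, symOut, symIn, regroup]
  · intro x y _ _ h3 h4
    rw [hhh_add, h3, h4, add_zero]
  · intro c x _ h3
    rw [hhh_smul, h3, smul_zero]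

end Pool.Agent.Helper51.HH
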