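import Mathlib
import Pool.Agent.Helper51.HH.Tab

/-!
# The numerical value
-/

set_option autoImplicit false

namespace Pool.Agent.Helper51.HH

open Finset

/-- the value of the semi-invariant at the sum of the fourth powers of the seven linear forms -/
def tot : ℤ :=
  s7 fun y0 => s7 fun y1 => s7 fun y2 => s7 fun y3 =>
    if dz y0 y1 y2 y3 = 0 then 0 else dz y0 y1 y2 y3 *
      s7 fun y4 => s7 fun y5 =>
        if dz y1 y3 y4 y5 = 0 then 0 else if dz y2 y4 y5 y0 = 0 then 0 else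
          dz y1 y3 y4 y5 * dz y2 y4 y5 y0 *
            s7 fun y6 => dz y6 y2 y3 y4 * dz y3 y5 y0 y6 * dz y4 y0 y6 y1 * dz y5 y6 y1 y2

set_option maxRecDepth 1000000 in
theorem tot_eq : tot = -2016 := by decide +kernel

/-- the value as a sum over seven indices -/
theorem sum_tot : ∑ y0 : Fin 7, ∑ y1 : Fin 7, ∑ y2 : Fin 7, ∑ y3 : Fin 7, ∑ y4 : Fin 7, ∑ y5 : Fin 7,
    ∑ y6 : Fin 7, dz y0 y1 y2 y3 * dz y1 y3 y4 y5 * dz y2 y4 y5 y0 * dz y6 y2 y3 y4 * dz y3 y5 y0 y6 *
      dz y4 y0 y6 y1 * dz y5 y6 y1 y2 = -2016 := by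
  rw [← tot_eq, tot, ← s7_eq]
  refine sum_congr rfl fun y0 _ => ?_
  rw [← s7_eq]
  refine sum_congr rfl fun y1 _ => ?_
  rw [← s7_eq]
  refine sum_congr rfl fun y2 _ => ?_
  rw [← s7_eq]
  refine sum_congr rfl fun y3 _ => ?_
  split_ifs with h
  · simp only [h, zero_mul, sum_const_zero]
  · rw [← s7_eq, mul_sum]
    refine sum_congr rfl fun y4 _ => ?_
    rw [← s7_eq, mul_sum]
    refine sum_congr rfl fun y5 _ => ?_
    split_ifs with h1 h2
    · simp only [h1, mul_zero, zero_mul, sum_const_zero]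
    · simp only [h2, mul_zero, zero_mul, sum_const_zero]
    · rw [← s7_eq, mul_sum, mul_sum]
      refine sum_congr rfl fun y6 _ => ?_
      ring

end Pool.Agent.Helper51.HH
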