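import Mathlib
import Pool.Agent.Helper51.HH.Odd
import Pool.Agent.Helper51.HH.Tot

/-!
# `S_{(7^4)} V` occurs in `S^7(S^4 V)`
-/

set_option autoImplicit false

namespace Pool.Agent.Helper51.HH

open Finset Pool.Agent.T6.H18.HH

/-- the difference set (complement of a line of the Fano plane) -/
def Dd : Fin 4 → Fin 7 := ![2, 4, 5, 6]

/-- the block `i` consists of the points `i + Dd j` -/
def sh : Fin 7 × Fin 4 ≃ Fin 7 × Fin 4 where
  toFun x := (x.1 + Dd x.2, x.2)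
  invFun x := (x.1 - Dd x.2, x.2)
  left_inv x := by simp
  right_inv x := by simp

/-- the coefficients of `(ℓ_1^4 + ... + ℓ_7^4)^{⊗7}` -/
noncomputable def ka (a : Fin 7 × Fin 4 → Fin 4) : ℂ :=
  ∏ v : Fin 7, ∑ r : Fin 7, ∏ j : Fin 4, ((vz r (a (v, j)) : ℤ) : ℂ)

/-- the value at `ℓ_1^4 + ... + ℓ_7^4` -/
noncomputable def lam (t : Tensor 4 (Fin 7 × Fin 4)) : ℂ := ∑ a, ka a * t a

theorem ka_in (τ : Fin 7 → Equiv.Perm (Fin 4)) (a : Fin 7 × Fin 4 → Fin 4) :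
    ka (fun x => a (eIn τ x)) = ka a := by
  simp only [ka]
  refine prod_congr rfl fun v _ => sum_congr rfl fun r _ => ?_
  exact Fintype.prod_equiv (τ v) _ _ fun j => rfl

theorem ka_out (σ : Equiv.Perm (Fin 7)) (a : Fin 7 × Fin 4 → Fin 4) :
    ka (fun x => a (eOut σ x)) = ka a := by
  simp only [ka]
  exact Fintype.prod_equiv σ _ _ fun j => rfl

theorem lam_mv (e : Fin 7 × Fin 4 ≃ Fin 7 × Fin 4) (he : ∀ a, ka (fun x => a (e x)) = ka a)
    (t : Tensor 4 (Fin 7 × Fin 4)) : lam (mv e t) = lam t := by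
  simp only [lam, mv]
  refine Fintype.sum_equiv (Equiv.arrowCongr e.symm (Equiv.refl _)) _ _ ?_
  intro a
  have h : (Equiv.arrowCongr e.symm (Equiv.refl (Fin 4))) a = fun x => a (e x) := rfl
  rw [h, he]

theorem lam_smul (c : ℂ) (t : Tensor 4 (Fin 7 × Fin 4)) : lam (c • t) = c * lam t := by
  simp only [lam, Pi.smul_apply, smul_eq_mul, mul_sum]
  exact sum_congr rfl fun a _ => by ring

theorem lam_sum {J : Type} (s : Finset J) (t : J → Tensor 4 (Fin 7 × Fin 4)) :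
    lam (∑ j ∈ s, t j) = ∑ j ∈ s, lam (t j) := by
  simp only [lam, Finset.sum_apply, mul_sum]
  exact sum_comm

theorem lam_sym (t : Tensor 4 (Fin 7 × Fin 4)) : lam (sym t) = lam t := by
  have h1 : lam (symIn t) = lam t := by
    rw [symIn_eq, lam_smul, lam_sum]
    simp only [lam_mv _ (ka_in _)]
    rw [sum_const, card_univ, Fintype.card_fun, Fintype.card_perm, Fintype.card_fin,
      Fintype.card_fin, nsmul_eq_mul, ← mul_assoc]
    push_cast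
    rw [inv_mul_cancel₀ (pow_ne_zero _ (fact_ne 4)), one_mul]
  rw [sym, symOut_eq, lam_smul, lam_sum]
  simp only [lam_mv _ (ka_out _)]
  rw [sum_const, card_univ, Fintype.card_perm, Fintype.card_fin, nsmul_eq_mul, ← mul_assoc,
    inv_mul_cancel₀ (fact_ne 7), one_mul, h1]

theorem lam_T : lam (mv sh (ww 4 7)) = ∑ φ : Fin 7 → Fin 7, ∏ i : Fin 7,
    Matrix.det (Matrix.of fun j k : Fin 4 => ((vz (φ (i + Dd j)) k : ℤ) : ℂ)) := by
  classical
  have h1 : ∀ a, ka a = ∑ φ : Fin 7 → Fin 7, ∏ x : Fin 7 × Fin 4, ((vz (φ x.1) (a x) : ℤ) : ℂ) := by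
    intro a
    rw [ka, Finset.prod_univ_sum]
    simp only [Fintype.piFinset_univ]
    refine sum_congr rfl fun φ _ => ?_
    rw [Fintype.prod_prod_type]
  have h2 : ∀ (φ : Fin 7 → Fin 7) (i : Fin 7),
      Matrix.det (Matrix.of fun j k : Fin 4 => ((vz (φ (i + Dd j)) k : ℤ) : ℂ)) =
      ∑ c : Fin 4 → Fin 4, (∏ j, ((vz (φ (i + Dd j)) (c j) : ℤ) : ℂ)) *
        Matrix.det (Matrix.of fun j k : Fin 4 => (Pi.single k 1 : Fin 4 → ℂ) (c j)) := by
    intro φ i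
    have h3 := det_expand (Matrix.of fun j k : Fin 4 => ((vz (φ (i + Dd j)) k : ℤ) : ℂ))
      (fun k => Pi.single k 1) id
    simp only [Matrix.of_apply, id] at h3
    rw [h3]
    congr 1
    ext j k
    simp
  simp only [h2, Finset.prod_univ_sum, Fintype.piFinset_univ]
  simp only [lam, mv, h1, sum_mul]
  rw [sum_comm]
  refine sum_congr rfl fun φ _ => ?_
  refine Fintype.sum_equiv ((Equiv.arrowCongr sh.symm (Equiv.refl _)).trans (Equiv.curry _ _ _)) _ _ ?_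
  intro a
  rw [prod_mul_distrib]
  congr 1
  rw [← Fintype.prod_prod_type']
  symm
  exact Fintype.prod_equiv sh _ _ fun x => rfl

theorem sum_cons {n : ℕ} (F : (Fin (n + 1) → Fin 7) → ℤ) :
    ∑ φ, F φ = ∑ a : Fin 7, ∑ ψ : Fin n → Fin 7, F (Fin.cons a ψ) := by
  rw [← Fintype.sum_prod_type']
  symm
  exact Fintype.sum_equiv (Fin.consEquiv fun _ => Fin 7) _ _ fun x => rfl

/-- the product of the seven determinants -/
def G (ψ : Fin 7 → Fin 7) : ℤ :=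
  dz (ψ 0) (ψ 1) (ψ 2) (ψ 3) * dz (ψ 1) (ψ 3) (ψ 4) (ψ 5) * dz (ψ 2) (ψ 4) (ψ 5) (ψ 0) *
    dz (ψ 6) (ψ 2) (ψ 3) (ψ 4) * dz (ψ 3) (ψ 5) (ψ 0) (ψ 6) * dz (ψ 4) (ψ 0) (ψ 6) (ψ 1) *
    dz (ψ 5) (ψ 6) (ψ 1) (ψ 2)

theorem sum_G : ∑ ψ, G ψ = -2016 := by
  rw [← sum_tot]
  simp only [sum_cons, Fintype.sum_unique]
  rfl

/-- the relabelling of the points -/
def rho : Equiv.Perm (Fin 7) where
  toFun := ![2, 4, 5, 6, 0, 1, 3]
  invFun := ![4, 5, 0, 6, 1, 2, 3]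
  left_inv := by decide
  right_inv := by decide

theorem prod_G (φ : Fin 7 → Fin 7) :
    ∏ i : Fin 7, Matrix.det (Matrix.of fun j k : Fin 4 => ((vz (φ (i + Dd j)) k : ℤ) : ℂ)) =
      ((G (fun x => φ (rho x)) : ℤ) : ℂ) := by
  have h : ∀ i : Fin 7, Matrix.det (Matrix.of fun j k : Fin 4 => ((vz (φ (i + Dd j)) k : ℤ) : ℂ)) =
      ((dz (φ (i + 2)) (φ (i + 4)) (φ (i + 5)) (φ (i + 6)) : ℤ) : ℂ) := by
    intro i
    rw [dz_eq]
    exact det_dt (Int.castRingHom ℂ) _ _ _ _ _ (fun k => rfl) (fun k => rfl) (fun k => rfl)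
      (fun k => rfl)
  rw [Fin.prod_univ_seven]
  simp only [h]
  have hG : G (fun x => φ (rho x)) =
      dz (φ 2) (φ 4) (φ 5) (φ 6) * dz (φ 4) (φ 6) (φ 0) (φ 1) * dz (φ 5) (φ 0) (φ 1) (φ 2) *
      dz (φ 3) (φ 5) (φ 6) (φ 0) * dz (φ 6) (φ 1) (φ 2) (φ 3) * dz (φ 0) (φ 2) (φ 3) (φ 4) *
      dz (φ 1) (φ 3) (φ 4) (φ 5) := rfl
  rw [hG]
  push_cast
  change ((dz (φ 2) (φ 4) (φ 5) (φ 6) : ℤ) : ℂ) * (dz (φ 3) (φ 5) (φ 6) (φ 0) : ℤ) *
    (dz (φ 4) (φ 6) (φ 0) (φ 1) : ℤ) * (dz (φ 5) (φ 0) (φ 1) (φ 2) : ℤ) *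
    (dz (φ 6) (φ 1) (φ 2) (φ 3) : ℤ) * (dz (φ 0) (φ 2) (φ 3) (φ 4) : ℤ) *
    (dz (φ 1) (φ 3) (φ 4) (φ 5) : ℤ) = _
  ring

theorem lam_T_ne : lam (mv sh (ww 4 7)) ≠ 0 := by
  rw [lam_T]
  simp only [prod_G]
  rw [← Int.cast_sum]
  have h : ∑ φ : Fin 7 → Fin 7, G (fun x => φ (rho x)) = ∑ ψ, G ψ :=
    Fintype.sum_equiv (Equiv.arrowCongr rho.symm (Equiv.refl _)) _ _ fun φ => rfl
  rw [h, sum_G]
  norm_num

theorem sym_add {m k l : ℕ} (s t : Tensor m (Fin k × Fin l)) : sym (s + t) = sym s + sym t := by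
  ext a
  simp only [sym, symOut, symIn, Pi.add_apply, mul_add, sum_add_distrib]

theorem sym_smul {m k l : ℕ} (c : ℂ) (t : Tensor m (Fin k × Fin l)) : sym (c • t) = c • sym t := by
  simp only [sym, symIn_eq, symOut_eq, mv_smul, ← smul_sum]
  simp only [smul_comm c]

theorem act_sym {m k l : ℕ} (g : Matrix (Fin m) (Fin m) ℂ) (t : Tensor m (Fin k × Fin l)) :
    act g (sym t) = sym (act g t) := by
  rw [sym, sym, act_symOut, act_symIn]

/-- **`S_{(7^4)} V` occurs in `S^7(S^4 V)`.** -/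
theorem occurs {m : ℕ} (hm : 4 ≤ m) : ∃ t ∈ isotypic m 7 4, t ≠ 0 := by
  let w : Tensor m (Fin 7 × Fin 4) := wedgePow 7 (fun k : Fin 4 => Pi.single (Fin.castLE hm k) 1)
  refine ⟨sym (mv sh w), Submodule.subset_span ⟨fun w => sym (mv sh w), ⟨?_, ?_, ?_⟩, ?_, w,
    Submodule.subset_span ⟨_, rfl⟩, rfl⟩, ?_⟩
  · intro w _ w' _
    rw [← sym_add]
    rfl
  · intro c w _
    change sym (mv sh (c • w)) = c • sym (mv sh w)
    rw [mv_smul, sym_smul]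
  · intro g w _
    change sym (mv sh (act g.1 w)) = act g.1 (sym (mv sh w))
    rw [act_sym, act_mv]
  · intro w _
    exact sym_mem _
  · intro h0
    apply lam_T_ne
    have h1 := congrArg (res hm) h0
    have h2 : res hm (sym (mv sh w)) = sym (mv sh (res hm w)) := rfl
    rw [h2, res_wedge] at h1
    rw [← lam_sym, h1]
    simp [lam, res]

end Pool.Agent.Helper51.HH
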